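import Pool.Agent.Helper64.E0.Turing
import Pool.Agent.Helper64.E0.Code

/-!
# Continuous maps of the Cantor space are computable in a parameter
-/

open MeasureTheory
open scoped ENNReal

namespace Pool.Agent.Helper81.EJ

open Pool.Agent.Helper64.E0 (TLe RO TEq EvEq gr mu)

/-- a code of the first `m` digits of `z` -/
def pcode (z : ℕ → Bool) : ℕ → ℕ
  | 0 => 0
  | m + 1 => Nat.pair (pcode z m) (z m).toNat

theorem pcode_inj {z z' : ℕ → Bool} :
    ∀ {m : ℕ}, pcode z m = pcode z' m → ∀ i < m, z i = z' i := by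
  intro m
  induction m with
  | zero => intro _ i hi; omega
  | succ m ih =>
    intro h i hi
    rw [pcode, pcode, Nat.pair_eq_pair] at h
    rcases Nat.lt_succ_iff_lt_or_eq.1 hi with h1 | rfl
    · exact ih h.1 i h1
    · have h2 := h.2
      cases h3 : z i <;> cases h4 : z' i <;> simp_all

theorem ro_pcode {y z : ℕ → Bool} (h : TLe z y) : RO y (pcode z) := by
  rw [← RO.iff_tle] at h
  have hu : Primrec Nat.unpair := Primrec.unpair
  have h1 : RO y fun p => Nat.pair p.unpair.2.unpair.2 (z p.unpair.2.unpair.1).toNat := by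
    refine RO.pair (RO.prim ?_) (h.comp (RO.prim ?_))
    · exact Primrec.snd.comp (hu.comp (Primrec.snd.comp hu))
    · exact Primrec.fst.comp (hu.comp (Primrec.snd.comp hu))
  have h2 := Nat.RecursiveIn.prec (Nat.RecursiveIn.zero
    (O := {PFun.lift fun n => (y n).toNat})) h1
  have h3 : RO y fun n => Nat.pair 0 n :=
    (RO.prim (Primrec.const 0)).pair (RO.prim Primrec.id)
  refine (Nat.RecursiveIn.comp h2 h3).of_eq fun n => ?_
  simp only [Part.bind_eq_bind, Part.bind_some, Nat.unpair_pair]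
  induction n with
  | zero => rfl
  | succ n ih =>
    simp only [pcode]
    rw [ih]
    simp

theorem modulus {a b : (ℕ → Bool) → (ℕ → Bool)} (ha : Continuous a) (hb : Continuous b)
    (hab : ∀ w w', a w = a w' → b w = b w') (n : ℕ) :
    ∃ m, ∀ w w', (∀ i < m, a w i = a w' i) → b w n = b w' n := by
  by_contra hcon
  push Not at hcon
  have hc : ∀ m : ℕ, IsClosed {p : (ℕ → Bool) × (ℕ → Bool) |
      (∀ i < m, a p.1 i = a p.2 i) ∧ b p.1 n ≠ b p.2 n} := by
    intro m
    have h1 : ∀ i, Continuous fun p : (ℕ → Bool) × (ℕ → Bool) => (a p.1 i, a p.2 i) := fun i =>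
      ((continuous_apply i).comp (ha.comp continuous_fst)).prodMk
        ((continuous_apply i).comp (ha.comp continuous_snd))
    have h2 : Continuous fun p : (ℕ → Bool) × (ℕ → Bool) => (b p.1 n, b p.2 n) :=
      ((continuous_apply n).comp (hb.comp continuous_fst)).prodMk
        ((continuous_apply n).comp (hb.comp continuous_snd))
    have h3 : {p : (ℕ → Bool) × (ℕ → Bool) | (∀ i < m, a p.1 i = a p.2 i) ∧ b p.1 n ≠ b p.2 n} =
        (⋂ i : ℕ, ⋂ _ : i < m, (fun p : (ℕ → Bool) × (ℕ → Bool) => (a p.1 i, a p.2 i)) ⁻¹'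
          {q : Bool × Bool | q.1 = q.2}) ∩
        (fun p : (ℕ → Bool) × (ℕ → Bool) => (b p.1 n, b p.2 n)) ⁻¹' {q : Bool × Bool | q.1 ≠ q.2} := by
      ext p
      simp
    rw [h3]
    refine IsClosed.inter (isClosed_iInter fun i => isClosed_iInter fun _ => ?_) ?_
    · exact (isClosed_discrete _).preimage (h1 i)
    · exact (isClosed_discrete _).preimage h2
  have h4 := IsCompact.nonempty_iInter_of_sequence_nonempty_isCompact_isClosed
    (fun m : ℕ => {p : (ℕ → Bool) × (ℕ → Bool) | (∀ i < m, a p.1 i = a p.2 i) ∧ b p.1 n ≠ b p.2 n})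
    (fun m p hp => ⟨fun i hi => hp.1 i (by omega), hp.2⟩)
    (fun m => by
      obtain ⟨w, w', h5, h6⟩ := hcon m
      exact ⟨(w, w'), h5, h6⟩)
    ((hc 0).isCompact) hc
  obtain ⟨p, hp⟩ := h4
  rw [Set.mem_iInter] at hp
  refine (hp 0).2 ?_
  rw [hab p.1 p.2 (funext fun i => (hp (i + 1)).1 i (by omega))]

theorem exists_code {W : Type*} {a b : W → (ℕ → Bool)}
    (h : ∀ n, ∃ m, ∀ w w', (∀ i < m, a w i = a w' i) → b w n = b w' n) :
    ∃ p : ℕ → Bool, ∀ w y, TLe p y → TLe (a w) y → TLe (b w) y := by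
  classical
  choose m hm using h
  let t : ℕ → Bool := fun k => decide (∃ w, pcode (a w) (m k.unpair.1) = k.unpair.2 ∧
    b w k.unpair.1 = true)
  refine ⟨Pool.Agent.Helper64.E0.join t (gr m), fun w y hp hz => ?_⟩
  have ht := (TLe.left t (gr m)).trans hp
  have hg := (TLe.right t (gr m)).trans hp
  have h1 : RO y m := by
    have h2 : Primrec fun m : ℕ => 1 - m := Primrec.nat_sub.comp (Primrec.const 1) Primrec.id
    refine RO.find ((RO.prim h2).comp (RO.iff_tle.2 hg)) fun a n => ?_
    rw [← Pool.Agent.Helper64.E0.gr_pair m a n]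
    cases gr m (Nat.pair a n) <;> simp
  have h3 : RO y fun n => (t (Nat.pair n (pcode (a w) (m n)))).toNat :=
    (RO.iff_tle.2 ht).comp ((RO.prim Primrec.id).pair ((ro_pcode hz).comp h1))
  rw [← RO.iff_tle]
  have h4 : (fun n => (b w n).toNat) = fun n => (t (Nat.pair n (pcode (a w) (m n)))).toNat := by
    funext n
    congr 1
    rw [Bool.eq_iff_iff]
    simp only [t, Nat.unpair_pair, decide_eq_true_iff]
    constructor
    · intro hb
      exact ⟨w, rfl, hb⟩
    · rintro ⟨w', h5, h6⟩
      rw [← hm n w' w (pcode_inj h5)]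
      exact h6
  rw [h4]
  exact h3

/-- An uncountable closed set contains, for every `w` in a cone, an element which together with
the base of the cone has the degree of `w`. -/
theorem exists_perfect {P : Set (ℕ → Bool)} (hP : IsClosed P) (hnc : ¬ P.Countable) :
    ∃ p : ℕ → Bool, ∀ w, TLe p w → ∃ r ∈ P, TLe r w ∧ ∀ y, TLe p y → TLe r y → TLe w y := by
  have : PolishSpace (ℕ → Bool) :=
    { toSecondCountableTopology := inferInstance, toIsCompletelyMetrizableSpace := inferInstance }
  obtain ⟨g, hgP, hg, hgi⟩ := hP.exists_nat_bool_injection_of_not_countable hnc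
  obtain ⟨p, hp⟩ := exists_code (a := fun w : ℕ → Bool => w) (b := g)
    (modulus continuous_id hg fun w w' h => congrArg g h)
  obtain ⟨p', hp'⟩ := exists_code (a := g) (b := fun w : ℕ → Bool => w)
    (modulus hg continuous_id fun w w' h => hgi h)
  refine ⟨Pool.Agent.Helper64.E0.join p p', fun w hw => ⟨g w, hgP ⟨w, rfl⟩, ?_, ?_⟩⟩
  · exact hp w w ((TLe.left _ _).trans hw) (TLe.refl w)
  · intro y hy hr
    exact hp' w y ((TLe.right _ _).trans hy) hr

/-- translation -/
def xr (p z : ℕ → Bool) (n : ℕ) : Bool := xor (z n) (p n)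

theorem tle_of_xr {p z y : ℕ → Bool} (h : TLe z y) (h' : TLe (xr p z) y) : TLe p y := by
  rw [← RO.iff_tle] at h h' ⊢
  have h1 : Primrec fun k : ℕ => (k.unpair.1 + k.unpair.2) % 2 :=
    Primrec.nat_mod.comp (Primrec.nat_add.comp (Primrec.fst.comp Primrec.unpair)
      (Primrec.snd.comp Primrec.unpair)) (Primrec.const 2)
  have h2 := (RO.prim (z := y) h1).comp (h.pair h')
  have h3 : (fun n => (p n).toNat) = fun n =>
      ((Nat.pair (z n).toNat (xr p z n).toNat).unpair.1 +
        (Nat.pair (z n).toNat (xr p z n).toNat).unpair.2) % 2 := by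
    funext n
    simp only [Nat.unpair_pair, xr]
    cases p n <;> cases z n <;> rfl
  rw [h3]
  exact h2

theorem mp_xr (p : ℕ → Bool) : MeasurePreserving (xr p) (mu ℕ) (mu ℕ) := by
  constructor
  · rw [measurable_pi_iff]
    intro j
    unfold xr
    exact (measurable_of_countable fun b => xor b (p j)).comp (measurable_pi_apply j)
  · have h1 := Measure.infinitePi_map_pi (μ := fun _ : ℕ => Pool.Agent.Helper64.E0.coin)
      (f := fun (j : ℕ) (b : Bool) => xor b (p j)) fun j => measurable_of_countable _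
    have h2 : (fun j : ℕ => Pool.Agent.Helper64.E0.coin.map fun b : Bool => xor b (p j)) =
        fun _ => Pool.Agent.Helper64.E0.coin := by
      funext j
      cases p j
      · simp only [Bool.xor_false]
        exact Measure.map_id
      · simp only [Bool.xor_true]
        exact Pool.Agent.Helper64.E0.coin_map_not
    have h3 : (fun (z : ℕ → Bool) j => xor (z j) (p j)) = xr p := rfl
    rw [h3] at h1
    unfold mu
    rw [h1]
    congr 1

theorem mu_singleton (y : ℕ → Bool) : mu ℕ {y} = 0 := by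
  have h1 : ∀ n : ℕ, mu ℕ {y} ≤ 2⁻¹ ^ n := fun n =>
    (measure_mono (by
      rintro z rfl
      exact rfl : ({y} : Set (ℕ → Bool)) ⊆
        {z | Pool.Agent.Helper64.E0.pre z n = Pool.Agent.Helper64.E0.pre y n})).trans
      (Pool.Agent.Helper64.E0.measure_cyl_le n _)
  refine le_antisymm ?_ zero_le
  refine ge_of_tendsto' (ENNReal.tendsto_pow_atTop_nhds_zero_of_lt_one ?_) h1
  exact ENNReal.inv_lt_one.2 ENNReal.one_lt_two

instance : NullSingletonClass (mu ℕ) := ⟨mu_singleton⟩

end Pool.Agent.Helper81.EJ
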