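import Pool.Agent.Helper81.EJ.Main
import Pool.Agent.Helper64.E0.TA

/-!
# Corollaries: order preserving maps, arithmetical equivalence
-/

namespace Pool.Agent.Helper81.EJ

open Pool.Agent.Helper64.E0

/-- order preserving maps from Turing reducibility to inclusion modulo finite sets -/
theorem constant_of_directed (f : (ℕ → Bool) → (ℕ → Bool)) (hf : Measurable f)
    (hmon : ∀ x y, TLe x y → ∃ N, ∀ n, N ≤ n → f x n = true → f y n = true) (b : ℕ → Bool)
    (hb : ∀ x y, TLe b x → TLe b y → EvEq (f x) (f y) →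
      ∃ z, TLe x z ∧ TLe y z ∧ EvEq (f z) (f x)) :
    ∃ c q : ℕ → Bool, ∀ w, TLe q w → EvEq (f w) c := by
  refine constant_of_join f hf (fun x y hxy => ?_) b fun x y hx hy hxy => ?_
  · obtain ⟨N1, h1⟩ := hmon x y hxy.1
    obtain ⟨N2, h2⟩ := hmon y x hxy.2
    refine ⟨max N1 N2, fun n hn => ?_⟩
    rw [Bool.eq_iff_iff]
    exact ⟨h1 n ((le_max_left _ _).trans hn), h2 n ((le_max_right _ _).trans hn)⟩
  · obtain ⟨z, hxz, hyz, N, hN⟩ := hb x y hx hy hxy
    obtain ⟨N1, h1⟩ := hmon x (join x y) (TLe.left x y)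
    obtain ⟨N2, h2⟩ := hmon (join x y) z (TLe.join hxz hyz)
    refine ⟨max N (max N1 N2), fun n hn => ?_⟩
    have hn0 : N ≤ n := (le_max_left _ _).trans hn
    have hn1 : N1 ≤ n := ((le_max_left _ _).trans (le_max_right _ _)).trans hn
    have hn2 : N2 ≤ n := ((le_max_right _ _).trans (le_max_right _ _)).trans hn
    rw [Bool.eq_iff_iff]
    constructor
    · intro h3
      rw [← hN n hn0]
      exact h2 n hn2 h3
    · exact h1 n hn1

/-- the second question -/
theorem arithmetic_of_join (f : (ℕ → Bool) → (ℕ → Bool)) (hf : Measurable f)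
    (hinv : ∀ x y, ArithEq x y → EvEq (f x) (f y)) (b : ℕ → Bool)
    (hb : ∀ x y, ArithLe b x → ArithLe b y → EvEq (f x) (f y) → EvEq (f (join x y)) (f x)) :
    ∃ c q : ℕ → Bool, ∀ w, ArithLe q w → EvEq (f w) c := by
  obtain ⟨c, q, h⟩ := constant_of_join f hf (fun x y hxy => hinv x y hxy.arithEq) b
    fun x y hx hy hxy => hb x y hx.arithLe hy.arithLe hxy
  refine ⟨c, q, fun w hw => ?_⟩
  have h1 : ArithEq w (join q w) := ⟨le_join_right q w, join_le hw (ArithLe.refl w)⟩
  exact evTrans (hinv _ _ h1) (h _ (TLe.left q w))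

end Pool.Agent.Helper81.EJ
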