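import Pool.Agent.Helper81.EJ.Cont
import Pool.Agent.Helper64.E0.Main

/-!
# Homomorphisms from Turing equivalence to `E₀` and joins
-/

open MeasureTheory
open scoped ENNReal

namespace Pool.Agent.Helper81.EJ

open Pool.Agent.Helper64.E0 (TLe RO TEq EvEq gr mu join)

theorem evSymm {x y : ℕ → Bool} (h : EvEq x y) : EvEq y x := by
  obtain ⟨N, hN⟩ := h
  exact ⟨N, fun n hn => (hN n hn).symm⟩

theorem evTrans {x y z : ℕ → Bool} (h : EvEq x y) (h' : EvEq y z) : EvEq x z := by
  obtain ⟨N, hN⟩ := h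
  obtain ⟨M, hM⟩ := h'
  exact ⟨max N M, fun n hn => (hN n ((le_max_left _ _).trans hn)).trans
    (hM n ((le_max_right _ _).trans hn))⟩

theorem measurable_join (b : ℕ → Bool) : Measurable fun z => join b z := by
  rw [measurable_pi_iff]
  intro n
  unfold Pool.Agent.Helper64.E0.join
  split_ifs
  · exact measurable_const
  · exact measurable_pi_apply _

/-- a large measurable set on which the function is constant modulo `E₀` -/
theorem exists_large (f : (ℕ → Bool) → (ℕ → Bool)) (hf : Measurable f)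
    (hinv : ∀ x y, TEq x y → EvEq (f x) (f y)) {b : ℕ → Bool}
    (hb : TLe Pool.Agent.Helper64.E0.permCode b) :
    ∃ (c : ℕ → Bool) (A : Set (ℕ → Bool)), MeasurableSet A ∧ 2⁻¹ < mu ℕ A ∧
      ∀ z ∈ A, EvEq (f (join b z)) c := by
  have hb' := Pool.Agent.Helper64.E0.permCode_spec hb
  obtain ⟨N, hN⟩ := Pool.Agent.Helper64.E0.majority (fun k z i => f (join b z) (k + i))
    (fun k => measurable_pi_lambda _ fun i => (measurable_pi_apply (k + i)).comp
      (hf.comp (measurable_join b)))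
    (fun k z z' h => by
      funext i
      have h1 := congrFun h (i + 1)
      rw [show k + (i + 1) = k + 1 + i by omega] at h1
      exact h1)
    (fun z c => by
      obtain ⟨k, hk⟩ := hinv _ _ (TEq.perm (z := z) (hb' c).1 (hb' c).2)
      exact ⟨k, funext fun i => hk _ (Nat.le_add_right k i)⟩)
  rw [Pool.Agent.Helper64.E0.lt_real_iff] at hN
  refine ⟨fun i => Pool.Agent.Helper64.E0.maj (fun z i => f (join b z) (N + i)) (i - N), _, ?_, hN, ?_⟩
  · exact Pool.Agent.Helper64.E0.measurableSet_eq_pi (measurable_pi_lambda _ fun i =>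
      (measurable_pi_apply (N + i)).comp (hf.comp (measurable_join b))) measurable_const
  · intro z hz
    refine ⟨N, fun i hi => ?_⟩
    have h1 : (fun i => f (join b z) (N + i)) =
      Pool.Agent.Helper64.E0.maj (fun z i => f (join b z) (N + i)) := hz
    rw [← h1]
    beta_reduce
    rw [Nat.add_sub_cancel' hi]

/-- Every degree in a cone is the join of three degrees above `b` in one fibre. -/
theorem three (f : (ℕ → Bool) → (ℕ → Bool)) (hf : Measurable f)
    (hinv : ∀ x y, TEq x y → EvEq (f x) (f y)) (b : ℕ → Bool) :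
    ∃ c u v : ℕ → Bool, TLe b u ∧ TLe b v ∧ EvEq (f u) c ∧ EvEq (f v) c ∧
      ∀ w, TLe (join u v) w → ∃ x, TLe b x ∧ EvEq (f x) c ∧ TEq (join (join u v) x) w := by
  set b' : ℕ → Bool := join b Pool.Agent.Helper64.E0.permCode with hb'
  have hbb : TLe b b' := TLe.left _ _
  obtain ⟨c, A, hA, hAm, hAc⟩ := exists_large f hf hinv (b := b') (TLe.right _ _)
  have hA0 : 0 < mu ℕ A := lt_of_le_of_lt zero_le hAm
  obtain ⟨P, hPA, hP, hPm⟩ := hA.exists_lt_isClosed_of_ne_top (measure_ne_top (mu ℕ) A) hA0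
  have hnc : ¬ P.Countable := fun h => by
    rw [h.measure_zero (mu ℕ)] at hPm
    exact lt_irrefl _ hPm
  obtain ⟨p, hp⟩ := exists_perfect hP hnc
  -- two elements of `A` which compute `p`
  obtain ⟨z, hz, hz'⟩ : ∃ z, z ∈ A ∧ xr p z ∈ A := by
    by_contra hcon
    push Not at hcon
    have h1 : mu ℕ (xr p ⁻¹' A) = mu ℕ A := (mp_xr p).measure_preimage hA.nullMeasurableSet
    have h2 : Disjoint A (xr p ⁻¹' A) := Set.disjoint_left.2 fun z h3 h4 => hcon z h3 h4
    have h3 := measure_union (μ := mu ℕ) h2 ((mp_xr p).measurable hA)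
    have h4 : mu ℕ (A ∪ xr p ⁻¹' A) ≤ 1 := prob_le_one
    rw [h3, h1] at h4
    have h5 : (1 : ℝ≥0∞) < mu ℕ A + mu ℕ A := by
      have h6 := ENNReal.add_lt_add hAm hAm
      rwa [ENNReal.inv_two_add_inv_two] at h6
    exact absurd h5 (not_lt.2 h4)
  refine ⟨c, join b' z, join b' (xr p z), hbb.trans (TLe.left _ _), hbb.trans (TLe.left _ _),
    hAc z hz, hAc _ hz', fun w hw => ?_⟩
  have hb'w : TLe b' w := ((TLe.left b' z).trans (TLe.left _ _)).trans hw
  have hzw : TLe z w := ((TLe.right b' z).trans (TLe.left _ _)).trans hw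
  have hz'w : TLe (xr p z) w := ((TLe.right b' (xr p z)).trans (TLe.right _ _)).trans hw
  obtain ⟨r, hrP, hrw, hr⟩ := hp w (tle_of_xr hzw hz'w)
  refine ⟨join b' r, hbb.trans (TLe.left _ _), hAc r (hPA hrP), ?_, ?_⟩
  · exact TLe.join hw (TLe.join hb'w hrw)
  · refine hr _ (tle_of_xr (z := z) ?_ ?_) ?_
    · exact ((TLe.right b' z).trans (TLe.left _ _)).trans (TLe.left _ _)
    · exact ((TLe.right b' (xr p z)).trans (TLe.right _ _)).trans (TLe.left _ _)
    · exact (TLe.right b' r).trans (TLe.right _ _)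

/-- If the fibres are closed under joins on some cone then the homomorphism is constant on a
cone. -/
theorem constant_of_join (f : (ℕ → Bool) → (ℕ → Bool)) (hf : Measurable f)
    (hinv : ∀ x y, TEq x y → EvEq (f x) (f y)) (b : ℕ → Bool)
    (hb : ∀ x y, TLe b x → TLe b y → EvEq (f x) (f y) → EvEq (f (join x y)) (f x)) :
    ∃ c q : ℕ → Bool, ∀ w, TLe q w → EvEq (f w) c := by
  obtain ⟨c, u, v, hu, hv, huc, hvc, h⟩ := three f hf hinv b
  refine ⟨c, join u v, fun w hw => ?_⟩
  obtain ⟨x, hx, hxc, hxw⟩ := h w hw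
  have h1 : EvEq (f (join u v)) c := evTrans (hb u v hu hv (evTrans huc (evSymm hvc))) huc
  have h2 : EvEq (f (join (join u v) x)) c :=
    evTrans (hb _ x (hu.trans (TLe.left _ _)) hx (evTrans h1 (evSymm hxc))) h1
  exact evTrans (evSymm (hinv _ _ hxw)) h2

end Pool.Agent.Helper81.EJ
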